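import Mathlib

set_option autoImplicit false
set_option linter.unusedSectionVars false

namespace Pool.Agent.Results.MP_7de179_co.SpanningTrees

open Finset

universe u

variable {V : Type u}

section defs

variable [Fintype V]

open Classical in
/-- the eccentricity of `v` in its connected component (for connected `G` the usual one) -/
noncomputable def ecc (G : SimpleGraph V) (v : V) : ℕ :=
  (Finset.univ.filter (fun u => G.Reachable v u)).sup (fun u => G.dist v u)

/-- `u` hears `f` from the broadcasting vertex `v` (distances between different components are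
infinite) -/
def Hears (G : SimpleGraph V) (f : V → ℕ) (u v : V) : Prop :=
  0 < f v ∧ G.edist u v ≤ (f v : ℕ∞)

/-- broadcasts: `f v ≤ e(v)` on components with at least two vertices, and `f v = 1` if the
component of `v` is `{v}` (that is, `e(v) = 0`) -/
def IsBroadcast (G : SimpleGraph V) (f : V → ℕ) : Prop :=
  ∀ v, (0 < ecc G v → f v ≤ ecc G v) ∧ (ecc G v = 0 → f v = 1)

/-- boundary independence -/
def BnIndep (G : SimpleGraph V) (f : V → ℕ) : Prop :=
  ∀ x, (∃ v w, v ≠ w ∧ Hears G f x v ∧ Hears G f x w) →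
    ∀ u, 0 < f u → (f u : ℕ∞) ≤ G.edist x u

/-- `f` is a maximal broadcast with property `P` -/
def IsMaxl (G : SimpleGraph V) (P : (V → ℕ) → Prop) (f : V → ℕ) : Prop :=
  IsBroadcast G f ∧ P f ∧ ∀ g, IsBroadcast G g → (∀ v, f v ≤ g v) → g ≠ f → ¬ P g

/-- the cost of a broadcast -/
def cost (f : V → ℕ) : ℕ := ∑ v, f v

/-- `i_bn(G)` -/
noncomputable def iBn (G : SimpleGraph V) : ℕ :=
  sInf {c | ∃ f, IsMaxl G (BnIndep G) f ∧ cost f = c}

end defs

/-! ### distances -/

/-- distance at most `k` -/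
def N (G : SimpleGraph V) (u v : V) (k : ℕ) : Prop := ∃ p : G.Walk u v, p.length ≤ k

variable {G : SimpleGraph V}

lemma N_iff {u v : V} {k : ℕ} : N G u v k ↔ G.edist u v ≤ (k : ℕ∞) := by
  constructor
  · rintro ⟨p, hp⟩
    exact (SimpleGraph.edist_le p).trans (by exact_mod_cast hp)
  · intro h
    have h1 : G.edist u v ≠ ⊤ := by
      intro h2
      rw [h2, top_le_iff] at h
      exact (ENat.natCast_ne_top k) h
    obtain ⟨p, hp⟩ := SimpleGraph.exists_walk_of_edist_ne_top h1
    refine ⟨p, ?_⟩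
    rw [← hp] at h
    exact_mod_cast h

lemma N_self (u : V) (k : ℕ) : N G u u k := ⟨SimpleGraph.Walk.nil, by simp⟩

lemma N_symm {u v : V} {k : ℕ} (h : N G u v k) : N G v u k := by
  obtain ⟨p, hp⟩ := h
  exact ⟨p.reverse, by simpa using hp⟩

lemma N_mono {u v : V} {k l : ℕ} (h : N G u v k) (hl : k ≤ l) : N G u v l := by
  obtain ⟨p, hp⟩ := h
  exact ⟨p, hp.trans hl⟩

lemma N_trans {u v w : V} {k l : ℕ} (h : N G u v k) (h' : N G v w l) : N G u w (k + l) := by
  obtain ⟨p, hp⟩ := h
  obtain ⟨q, hq⟩ := h'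
  exact ⟨p.append q, by rw [SimpleGraph.Walk.length_append]; omega⟩

lemma N_zero {u v : V} (h : N G u v 0) : u = v := by
  obtain ⟨p, hp⟩ := h
  exact SimpleGraph.Walk.eq_of_length_eq_zero (p := p) (by omega)

lemma N_split {u v : V} {k l : ℕ} (h : N G u v (k + l)) : ∃ w, N G u w k ∧ N G w v l := by
  obtain ⟨p, hp⟩ := h
  refine ⟨p.getVert k, ⟨p.take k, ?_⟩, ⟨p.drop k, ?_⟩⟩
  · rw [SimpleGraph.Walk.take_length]; exact min_le_left _ _
  · rw [SimpleGraph.Walk.drop_length]; omega

lemma N_reach {u v : V} {k : ℕ} (h : N G u v k) : G.Reachable u v := ⟨h.choose⟩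

/-- `a ≤ edist u v` in terms of `N` -/
lemma le_edist_iff {u v : V} {a : ℕ} : (a : ℕ∞) ≤ G.edist u v ↔ ∀ k, N G u v k → a ≤ k := by
  constructor
  · intro h k hk
    exact_mod_cast h.trans (N_iff.1 hk)
  · intro h
    by_cases h1 : G.edist u v = ⊤
    · rw [h1]; exact le_top
    · obtain ⟨p, hp⟩ := SimpleGraph.exists_walk_of_edist_ne_top h1
      rw [← hp]
      exact_mod_cast h p.length ⟨p, le_rfl⟩

section

variable [Fintype V]

lemma N_ecc {u v : V} (h : G.Reachable v u) : N G v u (ecc G v) := by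
  classical
  obtain ⟨p, hp⟩ := h.exists_walk_length_eq_dist
  refine ⟨p, ?_⟩
  rw [hp]
  have : u ∈ Finset.univ.filter (fun u => G.Reachable v u) := by simpa using h
  exact Finset.le_sup (f := fun u => G.dist v u) this

lemma lt_ecc {v : V} {k : ℕ} (h : k < ecc G v) : ∃ u, G.Reachable v u ∧ ¬ N G v u k := by
  classical
  unfold ecc at h
  rw [Finset.lt_sup_iff] at h
  obtain ⟨u, hu, hk⟩ := h
  rw [Finset.mem_filter] at hu
  refine ⟨u, hu.2, ?_⟩
  rintro ⟨p, hp⟩
  have := SimpleGraph.dist_le p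
  omega

lemma ecc_zero {u v : V} (h : ecc G v = 0) (hr : G.Reachable v u) : v = u := by
  have := N_ecc hr
  rw [h] at this
  exact N_zero this

/-! ### clusters -/

/-- the vertices hearing some vertex of `C` -/
def Y (G : SimpleGraph V) (f : V → ℕ) (C : Finset V) (x : V) : Prop := ∃ u ∈ C, N G x u (f u)

/-- total strength -/
def R (f : V → ℕ) (C : Finset V) : ℕ := ∑ u ∈ C, f u

/-- admissible centres -/
def Adm (G : SimpleGraph V) (f : V → ℕ) (C : Finset V) (w : V) : Prop :=
  ∀ x, Y G f C x → N G w x (R f C)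

/-- flexible clusters -/
def Flex (G : SimpleGraph V) (f : V → ℕ) (C : Finset V) : Prop :=
  ∀ b, Y G f C b → ∃ w, Adm G f C w ∧ ∃ k, k + 1 ≤ R f C ∧ N G w b k

lemma merge_aux [DecidableEq V] {f : V → ℕ} {C₁ C₂ : Finset V} (hd : Disjoint C₁ C₂) {w₁ w₂ : V}
    (h₁ : Adm G f C₁ w₁) (h₂ : Adm G f C₂ w₂) (hR₂ : 0 < R f C₂) {k : ℕ} (hk : N G w₁ w₂ k)
    (hk' : k + 1 ≤ R f C₁ + R f C₂) (b : V) (hb : Y G f C₁ b) :
    ∃ w, Adm G f (C₁ ∪ C₂) w ∧ ∃ k, k + 1 ≤ R f (C₁ ∪ C₂) ∧ N G w b k := by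
  have hRR : R f (C₁ ∪ C₂) = R f C₁ + R f C₂ := Finset.sum_union hd
  obtain ⟨w, hw1, hw2⟩ := N_split (N_mono (l := (R f C₂ - 1) + R f C₁) hk (by omega))
  have key : ∀ x, Y G f C₁ x → N G w x (R f C₂ - 1 + R f C₁) := fun x hx =>
    N_trans (N_symm hw1) (h₁ x hx)
  refine ⟨w, ?_, R f C₂ - 1 + R f C₁, by omega, key b hb⟩
  rintro x ⟨u, hu, hxu⟩
  rw [hRR]
  rcases Finset.mem_union.1 hu with hu | hu
  · exact N_mono (key x ⟨u, hu, hxu⟩) (by omega)
  · exact N_trans hw2 (h₂ x ⟨u, hu, hxu⟩)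

lemma merge [DecidableEq V] {f : V → ℕ} {C₁ C₂ : Finset V} (hd : Disjoint C₁ C₂) {w₁ w₂ : V}
    (h₁ : Adm G f C₁ w₁) (h₂ : Adm G f C₂ w₂) (hR₁ : 0 < R f C₁) (hR₂ : 0 < R f C₂)
    {k : ℕ} (hk : N G w₁ w₂ k) (hk' : k + 1 ≤ R f C₁ + R f C₂) : Flex G f (C₁ ∪ C₂) := by
  rintro b ⟨u, hu, hbu⟩
  rcases Finset.mem_union.1 hu with hu | hu
  · exact merge_aux hd h₁ h₂ hR₂ hk hk' b ⟨u, hu, hbu⟩
  · have := merge_aux hd.symm h₂ h₁ hR₁ (N_symm hk) (by omega) b ⟨u, hu, hbu⟩
    rwa [Finset.union_comm]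

/-! ### boundary independence pairwise -/

lemma bn_of_pair {g : V → ℕ}
    (h : ∀ u v, u ≠ v → 0 < g u → 0 < g v → ∀ k, N G u v k → g u + g v ≤ k) : BnIndep G g := by
  rintro x ⟨v, w, hvw, ⟨hv, hxv⟩, ⟨hw, hxw⟩⟩ u hu
  rw [le_edist_iff]
  intro k hk
  rw [← N_iff] at hxv hxw
  by_cases huv : u = v
  · subst huv
    have := h u w hvw hv hw _ (N_trans (N_symm hk) hxw)
    omega
  · have := h u v huv hu hv _ (N_trans (N_symm hk) hxv)
    omega

lemma pair_of_bn {g : V → ℕ} (h : BnIndep G g) {u v : V} (huv : u ≠ v) (hu : 0 < g u)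
    (hv : 0 < g v) (hN : N G u v (g u - 1 + g v)) : False := by
  obtain ⟨x, hx1, hx2⟩ := N_split hN
  have h1 := h x ⟨u, v, huv, ⟨hu, N_iff.1 (N_mono (N_symm hx1) (by omega))⟩, ⟨hv, N_iff.1 hx2⟩⟩ u hu
  rw [le_edist_iff] at h1
  have := h1 _ (N_symm hx1)
  omega

/-- criterion for maximality -/
lemma max_of {g : V → ℕ} (hb : IsBroadcast G g)
    (hp : ∀ u v, u ≠ v → 0 < g u → 0 < g v → ∀ k, N G u v k → g u + g v ≤ k)
    (hdom : ∀ x, ∃ u, 0 < g u ∧ N G x u (g u))
    (ht : ∀ v, 0 < g v → ecc G v ≤ g v ∨ ∃ u, u ≠ v ∧ 0 < g u ∧ N G v u (g v + g u)) :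
    IsMaxl G (BnIndep G) g := by
  refine ⟨hb, bn_of_pair hp, ?_⟩
  intro g' hb' hle hne hbn
  obtain ⟨v, hv⟩ : ∃ v, g' v ≠ g v := by
    by_contra hcon
    push Not at hcon
    exact hne (funext hcon)
  have hlt : g v < g' v := lt_of_le_of_ne (hle v) (Ne.symm hv)
  by_cases h0 : g v = 0
  · obtain ⟨u, hu, hN⟩ := hdom v
    have huv : u ≠ v := by rintro rfl; omega
    have := hle u
    exact pair_of_bn hbn huv (by omega) (by omega) (N_mono (N_symm hN) (by omega))
  · rcases ht v (by omega) with h | ⟨u, huv, hu, hN⟩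
    · have h1 := hb' v
      have h2 := hb v
      rcases Nat.eq_zero_or_pos (ecc G v) with h3 | h3
      · have := h1.2 h3
        have := h2.2 h3
        omega
      · have := h1.1 h3
        omega
    · have := hle u
      exact pair_of_bn hbn huv (by omega) (by omega) (N_mono (N_symm hN) (by omega))

/-- the main construction -/
lemma main_lemma {f : V → ℕ} (hdom : ∀ x, ∃ u, 0 < f u ∧ N G x u (f u))
    (hpart : ∀ v, 0 < f v → ecc G v ≤ f v ∨ ∃ u, u ≠ v ∧ 0 < f u ∧ N G v u (f v + f u)) :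
    ∃ g, IsMaxl G (BnIndep G) g ∧ cost g ≤ cost f := by
  classical
  -- clusters
  set S : Finset V := Finset.univ.filter (fun v => 0 < f v) with hS
  have memS : ∀ v, v ∈ S ↔ 0 < f v := fun v => by simp [hS]
  let C : (V → V) → V → Finset V := fun φ l => S.filter (fun v => φ v = l)
  have memC : ∀ φ l v, v ∈ C φ l ↔ 0 < f v ∧ φ v = l := by
    intro φ l v
    simp only [C, Finset.mem_filter, memS]
  let Valid : (V → V) → Prop := fun φ =>
    ∀ l ∈ S.image φ, (∃ v, C φ l = {v}) ∨ Flex G f (C φ l)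
  have hid : Valid id := by
    intro l hl
    left
    refine ⟨l, ?_⟩
    simp only [Finset.image_id] at hl
    ext v
    rw [memC, Finset.mem_singleton]
    constructor
    · rintro ⟨-, h⟩; exact h
    · rintro rfl; exact ⟨(memS _).1 hl, rfl⟩
  obtain ⟨φ, hφ, hmin⟩ := WellFounded.has_min
    (measure (fun φ : V → V => (S.image φ).card)).wf {φ | Valid φ} ⟨id, hid⟩
  replace hφ : Valid φ := hφ
  have hRpos : ∀ l ∈ S.image φ, 0 < R f (C φ l) := by
    intro l hl
    obtain ⟨v, hv, rfl⟩ := Finset.mem_image.1 hl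
    have hv' := (memS v).1 hv
    exact lt_of_lt_of_le hv' (Finset.single_le_sum (f := f) (fun _ _ => Nat.zero_le _)
      ((memC φ (φ v) v).2 ⟨hv', rfl⟩))
  have hdisj : ∀ l₁ l₂, l₁ ≠ l₂ → Disjoint (C φ l₁) (C φ l₂) := by
    intro l₁ l₂ h
    rw [Finset.disjoint_left]
    intro v hv hv'
    rw [memC] at hv hv'
    exact h (hv.2.symm.trans hv'.2)
  have hsep : ∀ l₁ ∈ S.image φ, ∀ l₂ ∈ S.image φ, l₁ ≠ l₂ → ∀ w₁ w₂, Adm G f (C φ l₁) w₁ →
      Adm G f (C φ l₂) w₂ → ∀ k, N G w₁ w₂ k → R f (C φ l₁) + R f (C φ l₂) ≤ k := by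
    intro l₁ hl₁ l₂ hl₂ hne w₁ w₂ hw₁ hw₂ k hk
    by_contra hcon
    push Not at hcon
    have hflex := merge (hdisj l₁ l₂ hne) hw₁ hw₂ (hRpos l₁ hl₁) (hRpos l₂ hl₂) hk hcon
    let ψ : V → V := fun x => if φ x = l₂ then l₁ else φ x
    have hψ1 : C ψ l₁ = C φ l₁ ∪ C φ l₂ := by
      ext v
      rw [Finset.mem_union, memC, memC, memC]
      simp only [ψ]
      constructor
      · rintro ⟨h, h'⟩
        by_cases h2 : φ v = l₂
        · exact Or.inr ⟨h, h2⟩
        · rw [if_neg h2] at h'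
          exact Or.inl ⟨h, h'⟩
      · rintro (⟨h, h'⟩ | ⟨h, h'⟩)
        · refine ⟨h, ?_⟩
          split_ifs
          · rfl
          · exact h'
        · exact ⟨h, if_pos h'⟩
    have hψ2 : ∀ l, l ≠ l₁ → l ≠ l₂ → C ψ l = C φ l := by
      intro l h h'
      ext v
      rw [memC, memC]
      simp only [ψ]
      constructor
      · rintro ⟨a, b⟩
        split_ifs at b with h3
        · exact absurd b.symm h
        · exact ⟨a, b⟩
      · rintro ⟨a, b⟩
        refine ⟨a, ?_⟩
        rw [if_neg]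
        · exact b
        · rw [b]; exact h'
    have himg : ∀ l ∈ S.image ψ, l ∈ S.image φ ∧ l ≠ l₂ := by
      intro l hl
      obtain ⟨v, hv, rfl⟩ := Finset.mem_image.1 hl
      simp only [ψ]
      split_ifs with h3
      · exact ⟨hl₁, hne⟩
      · exact ⟨Finset.mem_image_of_mem φ hv, h3⟩
    have hval : Valid ψ := by
      intro l hl
      obtain ⟨ha, hb⟩ := himg l hl
      by_cases hll : l = l₁
      · right
        rw [hll, hψ1]
        exact hflex
      · rw [hψ2 l hll hb]
        exact hφ l ha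
    apply hmin ψ hval
    change (S.image ψ).card < (S.image φ).card
    apply Finset.card_lt_card
    rw [Finset.ssubset_iff_of_subset (fun l hl => (himg l hl).1)]
    exact ⟨l₂, hl₂, fun h => (himg l₂ h).2 rfl⟩
  have hsing : ∀ v, C φ (φ v) = {v} → Adm G f (C φ (φ v)) v ∧ R f (C φ (φ v)) = f v := by
    intro v hv
    have hR : R f (C φ (φ v)) = f v := by
      rw [hv]; exact Finset.sum_singleton _ _
    refine ⟨?_, hR⟩
    rintro x ⟨u, hu, hN⟩
    rw [hR]
    rw [hv, Finset.mem_singleton] at hu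
    subst hu
    exact N_symm hN
  have hlab : ∀ l v, C φ l = {v} → φ v = l := by
    intro l v h
    have : v ∈ C φ l := by rw [h]; exact Finset.mem_singleton_self v
    exact ((memC φ l v).1 this).2
  -- centres
  have hcen : ∀ l ∈ S.image φ, ∃ w, Adm G f (C φ l) w ∧ (∀ v, C φ l = {v} → w = v) ∧
      (ecc G w ≤ R f (C φ l) ∨ ∃ u' ∈ S, φ u' ≠ l ∧ C φ (φ u') = {u'} ∧
        N G w u' (R f (C φ l) + f u')) := by
    intro l hl
    by_cases hs : ∃ v, C φ l = {v}
    · obtain ⟨v, hv⟩ := hs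
      have hvl := hlab l v hv
      subst hvl
      obtain ⟨hA, hR⟩ := hsing v hv
      refine ⟨v, hA, fun v' hv' => ?_, ?_⟩
      · rw [hv] at hv'
        exact Finset.singleton_injective hv'
      rw [hR]
      by_cases he : ecc G v ≤ f v
      · exact Or.inl he
      right
      have hvpos : 0 < f v := by rw [← hR]; exact hRpos _ hl
      obtain ⟨u, huv, hu, hN⟩ := (hpart v hvpos).resolve_left he
      have huS : u ∈ S := (memS u).2 hu
      have hul : φ u ≠ φ v := by
        intro h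
        have : u ∈ C φ (φ v) := (memC _ _ _).2 ⟨hu, h⟩
        rw [hv, Finset.mem_singleton] at this
        exact huv this
      refine ⟨u, huS, hul, ?_, hN⟩
      have hlu : φ u ∈ S.image φ := Finset.mem_image_of_mem φ huS
      rcases hφ (φ u) hlu with ⟨u₂, hu₂⟩ | hfl
      · have : u ∈ C φ (φ u) := (memC _ _ _).2 ⟨hu, rfl⟩
        rw [hu₂, Finset.mem_singleton] at this
        rw [hu₂, this]
      · exfalso
        obtain ⟨b, hb1, hb2⟩ := N_split hN
        obtain ⟨w, hw, k, hk, hwb⟩ := hfl b ⟨u, (memC _ _ _).2 ⟨hu, rfl⟩, hb2⟩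
        have := hsep _ hlu _ hl hul w v hw hA _ (N_trans hwb (N_symm hb1))
        rw [hR] at this
        omega
    · have hfl : Flex G f (C φ l) := (hφ l hl).resolve_left hs
      by_cases he : ∃ w, Adm G f (C φ l) w ∧ ecc G w ≤ R f (C φ l)
      · obtain ⟨w, hw, he⟩ := he
        exact ⟨w, hw, fun v hv => absurd ⟨v, hv⟩ hs, Or.inl he⟩
      push Not at he
      obtain ⟨y₀, hy₀S, hy₀⟩ := Finset.mem_image.1 hl
      have hy₀pos := (memS y₀).1 hy₀S
      have hyY : Y G f (C φ l) y₀ := ⟨y₀, (memC _ _ _).2 ⟨hy₀pos, hy₀⟩, N_self _ _⟩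
      obtain ⟨w₀, hw₀, -⟩ := hfl y₀ hyY
      obtain ⟨x, hx1, hx2⟩ := lt_ecc (he w₀ hw₀)
      have hxY : ¬ Y G f (C φ l) x := fun h => hx2 (hw₀ x h)
      have hr : G.Reachable y₀ x := (N_reach (hw₀ y₀ hyY)).symm.trans hx1
      obtain ⟨p⟩ := hr
      obtain ⟨⟨⟨b, b'⟩, hadj⟩, -, hb, hb'⟩ := p.exists_boundary_dart {y | Y G f (C φ l) y} hyY hxY
      replace hb : Y G f (C φ l) b := hb
      replace hb' : ¬ Y G f (C φ l) b' := hb'
      replace hadj : G.Adj b b' := hadj
      have hN1 : N G b b' 1 := ⟨SimpleGraph.Walk.cons hadj SimpleGraph.Walk.nil, by simp⟩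
      obtain ⟨u', hu', hN'⟩ := hdom b'
      have hu'S := (memS u').2 hu'
      have hl' : φ u' ≠ l := by
        intro h
        exact hb' ⟨u', (memC _ _ _).2 ⟨hu', h⟩, hN'⟩
      have hlu : φ u' ∈ S.image φ := Finset.mem_image_of_mem φ hu'S
      obtain ⟨w, hw, k, hk, hwb⟩ := hfl b hb
      refine ⟨w, hw, fun v hv => absurd ⟨v, hv⟩ hs, Or.inr ⟨u', hu'S, hl', ?_, ?_⟩⟩
      · rcases hφ (φ u') hlu with ⟨u₂, hu₂⟩ | hfl'
        · have : u' ∈ C φ (φ u') := (memC _ _ _).2 ⟨hu', rfl⟩
          rw [hu₂, Finset.mem_singleton] at this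
          rw [hu₂, this]
        · exfalso
          obtain ⟨w', hw', k', hk', hwb'⟩ := hfl' b' ⟨u', (memC _ _ _).2 ⟨hu', rfl⟩, hN'⟩
          have := hsep _ hl _ hlu (Ne.symm hl') w w' hw hw' _
            (N_trans (N_trans hwb hN1) (N_symm hwb'))
          omega
      · exact N_mono (N_trans (N_trans hwb hN1) hN') (by omega)
  choose! c hc1 hc2 hc3 using hcen
  set L : Finset V := S.image φ with hL
  let val : V → ℕ := fun l => min (R f (C φ l)) (max 1 (ecc G (c l)))
  have hvpos : ∀ l ∈ L, 0 < val l := by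
    intro l hl
    have := hRpos l hl
    simp only [val]
    omega
  let g : V → ℕ := fun x => ∑ l ∈ L.filter (fun l => c l = x), val l
  have hinj : ∀ l₁ ∈ L, ∀ l₂ ∈ L, c l₁ = c l₂ → l₁ = l₂ := by
    intro l₁ h₁ l₂ h₂ h
    by_contra hne
    have h3 := hsep l₁ h₁ l₂ h₂ hne (c l₁) (c l₂) (hc1 l₁ h₁) (hc1 l₂ h₂) 0 (by rw [h]; exact N_self _ _)
    have := hRpos l₁ h₁
    omega
  have hg1 : ∀ l ∈ L, g (c l) = val l := by
    intro l hl
    have : L.filter (fun l' => c l' = c l) = {l} := by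
      ext l'
      rw [Finset.mem_filter, Finset.mem_singleton]
      constructor
      · rintro ⟨h, h'⟩; exact hinj _ h _ hl h'
      · rintro rfl; exact ⟨hl, rfl⟩
    simp only [g, this, Finset.sum_singleton]
  have hg2 : ∀ x, 0 < g x → ∃ l ∈ L, c l = x := by
    intro x hx
    by_contra hcon
    push Not at hcon
    have : g x = 0 := by
      simp only [g]
      rw [Finset.filter_false_of_mem hcon, Finset.sum_empty]
    omega
  have hcost : cost g ≤ cost f := by
    have e1 : cost g = ∑ l ∈ L, val l := by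
      unfold cost
      simp only [g]
      exact Finset.sum_fiberwise_of_maps_to (fun _ _ => Finset.mem_univ _) _
    have e2 : ∑ l ∈ L, R f (C φ l) = ∑ u ∈ S, f u := by
      simp only [R, C]
      exact Finset.sum_fiberwise_of_maps_to (fun u hu => Finset.mem_image_of_mem φ hu) _
    have e3 : ∑ u ∈ S, f u ≤ cost f :=
      Finset.sum_le_sum_of_subset (Finset.subset_univ _)
    rw [e1]
    refine le_trans ?_ (e2.le.trans e3)
    exact Finset.sum_le_sum fun l _ => min_le_left _ _
  -- every vertex hears `g`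
  have hgdom : ∀ x, ∃ l ∈ L, N G x (c l) (val l) := by
    intro x
    obtain ⟨u, hu, hN⟩ := hdom x
    have huS := (memS u).2 hu
    have hl : φ u ∈ L := Finset.mem_image_of_mem φ huS
    refine ⟨φ u, hl, ?_⟩
    have h3 := hc1 _ hl x ⟨u, (memC _ _ _).2 ⟨hu, rfl⟩, hN⟩
    have h4 := N_ecc (N_reach h3)
    apply N_symm
    simp only [val]
    rcases le_total (R f (C φ (φ u))) (max 1 (ecc G (c (φ u)))) with h | h
    · rw [min_eq_left h]; exact h3
    · rw [min_eq_right h]; exact N_mono h4 (le_max_right _ _)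
  have hgb : IsBroadcast G g := by
    intro x
    constructor
    · intro hx
      rcases Nat.eq_zero_or_pos (g x) with h | h
      · omega
      · obtain ⟨l, hl, rfl⟩ := hg2 x h
        rw [hg1 l hl]
        simp only [val]
        omega
    · intro hx
      obtain ⟨l, hl, hN⟩ := hgdom x
      have : x = c l := ecc_zero hx (N_reach hN)
      subst this
      have h5 := hRpos l hl
      rw [hg1 l hl]
      simp only [val, hx]
      omega
  refine ⟨g, max_of hgb ?_ ?_ ?_, hcost⟩
  · intro u v huv hu hv k hk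
    obtain ⟨l₁, h₁, rfl⟩ := hg2 u hu
    obtain ⟨l₂, h₂, rfl⟩ := hg2 v hv
    have hne : l₁ ≠ l₂ := by rintro rfl; exact huv rfl
    have := hsep l₁ h₁ l₂ h₂ hne _ _ (hc1 l₁ h₁) (hc1 l₂ h₂) k hk
    rw [hg1 l₁ h₁, hg1 l₂ h₂]
    simp only [val]
    omega
  · intro x
    obtain ⟨l, hl, hN⟩ := hgdom x
    exact ⟨c l, by rw [hg1 l hl]; exact hvpos l hl, by rw [hg1 l hl]; exact hN⟩
  · intro v hv
    obtain ⟨l, hl, rfl⟩ := hg2 v hv
    rw [hg1 l hl]
    by_cases he : ecc G (c l) ≤ R f (C φ l)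
    · left
      simp only [val]
      omega
    · right
      rcases hc3 l hl with h | ⟨u', hu'S, hne, hC, hN⟩
      · exact absurd h he
      have hlu : φ u' ∈ L := Finset.mem_image_of_mem φ hu'S
      have hcu : c (φ u') = u' := hc2 _ hlu u' hC
      have hval' : val (φ u') = f u' := by
        simp only [val]
        rw [hcu, (hsing u' hC).2]
        have h6 := hsep l hl _ hlu (Ne.symm hne) (c l) u' (hc1 l hl) (hsing u' hC).1 _
          (N_symm (N_ecc (N_reach (N_symm hN))))
        rw [(hsing u' hC).2] at h6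
        omega
      have hvall : val l = R f (C φ l) := by
        simp only [val]
        omega
      have hgu : g u' = f u' := by
        have := hg1 _ hlu
        rw [hcu, hval'] at this
        exact this
      refine ⟨u', ?_, ?_, ?_⟩
      · intro h
        apply hne
        exact hinj _ hlu _ hl (by rw [hcu, h])
      · rw [hgu]; exact (memS u').1 hu'S
      · rw [hgu, hvall]; exact hN

/-! ### necessary conditions for maximality -/

lemma pair_iff {g : V → ℕ} (h : BnIndep G g) {u v : V} (huv : u ≠ v) (hu : 0 < g u)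
    (hv : 0 < g v) {k : ℕ} (hN : N G u v k) : g u + g v ≤ k := by
  by_contra hcon
  exact pair_of_bn h huv hu hv (N_mono hN (by omega))

lemma nec_dom {f : V → ℕ} (hf : IsMaxl G (BnIndep G) f) :
    ∀ x, ∃ u, 0 < f u ∧ N G x u (f u) := by
  classical
  obtain ⟨hfb, hfh, hfm⟩ := hf
  intro x
  by_cases hx : 0 < f x
  · exact ⟨x, hx, N_self x _⟩
  have hx0 : f x = 0 := by omega
  by_contra hcon
  push Not at hcon
  refine hfm (Function.update f x 1) ?_ ?_ ?_ (bn_of_pair ?_)
  · intro v
    by_cases hvx : v = x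
    · subst hvx
      rw [Function.update_self]
      exact ⟨fun h => h, fun _ => rfl⟩
    · rw [Function.update_of_ne hvx]
      exact hfb v
  · intro v
    by_cases hvx : v = x
    · subst hvx
      rw [Function.update_self]; omega
    · rw [Function.update_of_ne hvx]
  · intro h
    have := congrFun h x
    rw [Function.update_self] at this
    omega
  · have key : ∀ u, u ≠ x → 0 < f u → ∀ k, N G x u k → f u + 1 ≤ k := by
      intro u hux hu k hk
      by_contra hlt
      exact hcon u hu (N_mono hk (by omega))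
    intro u v huv hu hv k hk
    by_cases hux : u = x
    · subst hux
      rw [Function.update_of_ne (Ne.symm huv)] at hv ⊢
      rw [Function.update_self]
      have := key v (Ne.symm huv) hv k hk
      omega
    · rw [Function.update_of_ne hux] at hu ⊢
      by_cases hvx : v = x
      · subst hvx
        rw [Function.update_self]
        exact key u hux hu k (N_symm hk)
      · rw [Function.update_of_ne hvx] at hv ⊢
        exact pair_iff hfh huv hu hv hk

lemma nec_part {f : V → ℕ} (hf : IsMaxl G (BnIndep G) f) :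
    ∀ v, 0 < f v → ecc G v ≤ f v ∨ ∃ u, u ≠ v ∧ 0 < f u ∧ N G v u (f v + f u) := by
  classical
  obtain ⟨hfb, hfh, hfm⟩ := hf
  intro x hx
  by_contra hcon
  push Not at hcon
  obtain ⟨hlt, hcon⟩ := hcon
  refine hfm (Function.update f x (f x + 1)) ?_ ?_ ?_ (bn_of_pair ?_)
  · intro v
    by_cases hvx : v = x
    · subst hvx
      rw [Function.update_self]
      exact ⟨fun _ => hlt, fun h => by omega⟩
    · rw [Function.update_of_ne hvx]
      exact hfb v
  · intro v
    by_cases hvx : v = x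
    · subst hvx
      rw [Function.update_self]; omega
    · rw [Function.update_of_ne hvx]
  · intro h
    have := congrFun h x
    rw [Function.update_self] at this
    omega
  · have key : ∀ u, u ≠ x → 0 < f u → ∀ k, N G x u k → f x + f u + 1 ≤ k := by
      intro u hux hu k hk
      by_contra hlt
      exact hcon u hux hu (N_mono hk (by omega))
    intro u v huv hu hv k hk
    by_cases hux : u = x
    · subst hux
      rw [Function.update_of_ne (Ne.symm huv)] at hv ⊢
      rw [Function.update_self]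
      have := key v (Ne.symm huv) hv k hk
      omega
    · rw [Function.update_of_ne hux] at hu ⊢
      by_cases hvx : v = x
      · subst hvx
        rw [Function.update_self]
        have := key u hux hu k (N_symm hk)
        omega
      · rw [Function.update_of_ne hvx] at hv ⊢
        exact pair_iff hfh huv hu hv hk

/-- maximal boundary independent broadcasts exist -/
lemma exists_max (G : SimpleGraph V) : ∃ f, IsMaxl G (BnIndep G) f := by
  classical
  let B : V → ℕ := fun v => max 1 (ecc G v)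
  let T : Set (V → ℕ) := {f | IsBroadcast G f ∧ BnIndep G f}
  have hT : T.Finite := by
    apply (Set.finite_Icc (0 : V → ℕ) B).subset
    rintro f ⟨hf, -⟩
    refine ⟨fun v => Nat.zero_le _, fun v => ?_⟩
    simp only [B]
    rcases Nat.eq_zero_or_pos (ecc G v) with h | h
    · have := (hf v).2 h
      omega
    · have := (hf v).1 h
      omega
  have hne : T.Nonempty := by
    refine ⟨fun v => if ecc G v = 0 then 1 else 0, ?_, ?_⟩
    · intro v
      refine ⟨fun h => ?_, fun h => if_pos h⟩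
      have h' : ¬ ecc G v = 0 := by omega
      simp only [if_neg h']
      omega
    · apply bn_of_pair
      intro u v huv hu hv k hN
      exfalso
      have : ecc G u = 0 := by
        by_contra h
        simp only [if_neg h] at hu
        omega
      exact huv (ecc_zero this (N_reach hN))
  obtain ⟨f, hf, hmax⟩ := hT.exists_maximalFor cost T hne
  refine ⟨f, hf.1, hf.2, ?_⟩
  intro g hg hle hne' hP
  have h1 : cost f ≤ cost g := Finset.sum_le_sum fun v _ => hle v
  have h2 := hmax ⟨hg, hP⟩ h1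
  apply hne'
  funext v
  by_contra hv
  have h3 : cost f < cost g := Finset.sum_lt_sum (fun v _ => hle v)
    ⟨v, Finset.mem_univ _, lt_of_le_of_ne (hle v) (Ne.symm hv)⟩
  omega

lemma iBn_attained (G : SimpleGraph V) : ∃ f, IsMaxl G (BnIndep G) f ∧ cost f = iBn G := by
  obtain ⟨f₀, hf₀⟩ := exists_max G
  exact Nat.sInf_mem (s := {c | ∃ f, IsMaxl G (BnIndep G) f ∧ cost f = c}) ⟨_, f₀, hf₀, rfl⟩

lemma iBn_le {f : V → ℕ} (hf : IsMaxl G (BnIndep G) f) : iBn G ≤ cost f :=
  Nat.sInf_le (⟨f, hf, rfl⟩ : cost f ∈ {c | ∃ f, IsMaxl G (BnIndep G) f ∧ cost f = c})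

/-! ### subgraphs -/

lemma N_le {T : SimpleGraph V} (h : T ≤ G) {u v : V} {k : ℕ} (hN : N T u v k) : N G u v k := by
  obtain ⟨p, hp⟩ := hN
  exact ⟨p.mapLe h, by rw [SimpleGraph.Walk.length_mapLe]; exact hp⟩

lemma ecc_le_of {v : V} {k : ℕ} (h : ∀ u, G.Reachable v u → N G v u k) : ecc G v ≤ k := by
  classical
  unfold ecc
  apply Finset.sup_le
  intro u hu
  rw [Finset.mem_filter] at hu
  obtain ⟨p, hp⟩ := h u hu.2
  exact (SimpleGraph.dist_le p).trans hp

/-- the parameter of a connected graph is at most that of each spanning tree -/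
lemma le_of_tree {T : SimpleGraph V} (h : T ≤ G) (hT : T.Connected) : iBn G ≤ iBn T := by
  obtain ⟨f, hf, hfc⟩ := iBn_attained T
  have h1 : ∀ x, ∃ u, 0 < f u ∧ N G x u (f u) := by
    intro x
    obtain ⟨u, hu, hN⟩ := nec_dom hf x
    exact ⟨u, hu, N_le h hN⟩
  have h2 : ∀ v, 0 < f v → ecc G v ≤ f v ∨ ∃ u, u ≠ v ∧ 0 < f u ∧ N G v u (f v + f u) := by
    intro v hv
    rcases nec_part hf v hv with h1 | ⟨u, huv, hu, hN⟩
    · left
      apply ecc_le_of
      intro u _
      exact N_mono (N_le h (N_ecc (hT v u))) h1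
    · exact Or.inr ⟨u, huv, hu, N_le h hN⟩
  obtain ⟨g, hg, hgc⟩ := main_lemma h1 h2
  rw [← hfc]
  exact (iBn_le hg).trans hgc

/-! ### a good spanning tree -/

lemma bd {P : V → Prop} {a c : V} (p : G.Walk a c) (ha : P a) (hc : ¬ P c) :
    ∃ x y i j, G.Adj x y ∧ P x ∧ ¬ P y ∧ N G a x i ∧ N G y c j ∧ i + 1 + j ≤ p.length := by
  induction p with
  | nil => exact absurd ha hc
  | @cons a b c h q ih =>
    by_cases hb : P b
    · obtain ⟨x, y, i, j, h1, h2, h3, h4, h5, h6⟩ := ih hb hc
      have h7 : N G a b 1 := ⟨SimpleGraph.Walk.cons h SimpleGraph.Walk.nil, by simp⟩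
      refine ⟨x, y, 1 + i, j, h1, h2, h3, N_trans h7 h4, h5, ?_⟩
      rw [SimpleGraph.Walk.length_cons]
      omega
    · refine ⟨a, b, 0, q.length, h, ha, hb, N_self _ _, ⟨q, le_rfl⟩, ?_⟩
      rw [SimpleGraph.Walk.length_cons]
      omega

lemma step {a c : V} (p : G.Walk a c) (h : a ≠ c) : ∃ y, G.Adj a y ∧ G.dist y c + 1 ≤ p.length := by
  cases p with
  | nil => exact absurd rfl h
  | @cons _ y _ h' q =>
    refine ⟨y, h', ?_⟩
    rw [SimpleGraph.Walk.length_cons]
    have := SimpleGraph.dist_le q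
    omega

lemma dist_N {u v : V} {k : ℕ} (h : N G u v k) : G.dist u v ≤ k := by
  obtain ⟨p, hp⟩ := h
  exact (SimpleGraph.dist_le p).trans hp

lemma N_dist (hG : G.Connected) (u v : V) : N G u v (G.dist u v) := by
  obtain ⟨p, hp⟩ := hG.exists_walk_length_eq_dist u v
  exact ⟨p, hp.le⟩

/-- parent pointers give an acyclic graph -/
lemma acyclic_of_parent {p : V → V} {r : V → ℕ} (hr : ∀ x, p x ≠ x → r (p x) < r x) :
    (SimpleGraph.fromRel (fun x y => p x = y)).IsAcyclic := by
  classical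
  have hiter : ∀ k z, r (p^[k] z) ≤ r z := by
    intro k
    induction k with
    | zero => intro z; exact le_rfl
    | succ k ih =>
      intro z
      rw [Function.iterate_succ_apply]
      refine (ih (p z)).trans ?_
      by_cases h : p z = z
      · rw [h]
      · exact (hr z h).le
  have main : ∀ v w, v ≠ w → p v = w →
      (SimpleGraph.fromRel (fun x y => p x = y)).IsBridge s(v, w) := by
    intro v w hvw hp
    rw [SimpleGraph.isBridge_iff]
    rintro ⟨q⟩
    have hw : ¬ ∃ k, p^[k] w = v := by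
      rintro ⟨k, hk⟩
      have h1 := hiter k w
      rw [hk] at h1
      have h2 := hr v (by rw [hp]; exact hvw.symm)
      rw [hp] at h2
      omega
    obtain ⟨⟨⟨a, b⟩, hadj⟩, -, ha, hb⟩ := q.exists_boundary_dart {z | ∃ k, p^[k] z = v} ⟨0, rfl⟩ hw
    replace ha : ∃ k, p^[k] a = v := ha
    replace hb : ¬ ∃ k, p^[k] b = v := hb
    rw [SimpleGraph.deleteEdges_adj] at hadj
    obtain ⟨hadj, hne⟩ := hadj
    rw [SimpleGraph.fromRel_adj] at hadj
    obtain ⟨k, hk⟩ := ha
    rcases hadj.2 with h | h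
    · cases k with
      | zero =>
        replace hk : a = v := hk
        subst hk
        rw [hp] at h
        subst h
        exact hne rfl
      | succ k =>
        rw [Function.iterate_succ_apply, h] at hk
        exact hb ⟨k, hk⟩
    · apply hb
      refine ⟨k + 1, ?_⟩
      rw [Function.iterate_succ_apply, h]
      exact hk
  rw [SimpleGraph.isAcyclic_iff_forall_adj_isBridge]
  intro v w hvw
  rw [SimpleGraph.fromRel_adj] at hvw
  rcases hvw.2 with h | h
  · exact main v w hvw.1 h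
  · rw [Sym2.eq_swap]
    exact main w v hvw.1.symm h

lemma exists_tree (hG : G.Connected) {f : V → ℕ} (hdom : ∀ x, ∃ u, 0 < f u ∧ N G x u (f u))
    (hpair : ∀ u v, u ≠ v → 0 < f u → 0 < f v → ∀ k, N G u v k → f u + f v ≤ k)
    (hpart : ∀ v, 0 < f v → ecc G v ≤ f v ∨ ∃ u, u ≠ v ∧ 0 < f u ∧ N G v u (f v + f u)) :
    ∃ T ≤ G, T.IsTree ∧ (∀ x, ∃ u, 0 < f u ∧ N T x u (f u)) ∧
      (∀ v, 0 < f v → ecc T v ≤ f v ∨ ∃ u, u ≠ v ∧ 0 < f u ∧ N T v u (f v + f u)) := by
  classical
  set S : Finset V := Finset.univ.filter (fun v => 0 < f v) with hS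
  have memS : ∀ v, v ∈ S ↔ 0 < f v := fun v => by simp [hS]
  set n : ℕ := Fintype.card V with hn
  let e : V ≃ Fin n := Fintype.equivFin V
  set M : ℕ := cost f with hM
  have hfM : ∀ v, f v ≤ M := fun v =>
    Finset.single_le_sum (f := f) (fun _ _ => Nat.zero_le _) (Finset.mem_univ v)
  let K : V → V → ℕ := fun x u => (G.dist x u + (M - f u)) * n + (e u : ℕ)
  have he : ∀ u, (e u : ℕ) < n := fun u => (e u).2
  have hSne : S.Nonempty := by
    obtain ⟨v⟩ := hG.nonempty
    obtain ⟨u, hu, -⟩ := hdom v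
    exact ⟨u, (memS u).2 hu⟩
  have hK : ∀ x u u' c c', K x u ≤ K c u' → G.dist x u + (M - f u) = c' →
      c' ≤ G.dist c u' + (M - f u') := by
    intro x u u' c c' h hc
    by_contra hcon
    push Not at hcon
    simp only [K] at h
    rw [hc] at h
    have h1 : (G.dist c u' + (M - f u') + 1) * n ≤ c' * n := Nat.mul_le_mul_right _ hcon
    have h2 := he u'
    have h3 : (G.dist c u' + (M - f u') + 1) * n = (G.dist c u' + (M - f u')) * n + n := by ring
    omega
  have ho : ∀ x, ∃ u ∈ S, ∀ u' ∈ S, K x u ≤ K x u' := fun x => Finset.exists_min_image S (K x) hSne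
  choose o ho1 ho2 using ho
  have huniq : ∀ x, ∀ u ∈ S, (∀ u' ∈ S, K x u ≤ K x u') → u = o x := by
    intro x u hu h
    have h1 : K x u = K x (o x) := le_antisymm (h _ (ho1 x)) (ho2 x _ hu)
    have h2 : K x u % n = K x (o x) % n := by rw [h1]
    simp only [K] at h2
    rw [Nat.mul_add_mod', Nat.mul_add_mod', Nat.mod_eq_of_lt (he u), Nat.mod_eq_of_lt (he (o x))] at h2
    exact e.injective (Fin.ext h2)
  have hoS : ∀ x, 0 < f (o x) := fun x => (memS _).1 (ho1 x)
  -- the owner dominates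
  have hod : ∀ x, G.dist x (o x) ≤ f (o x) := by
    intro x
    obtain ⟨u, hu, hN⟩ := hdom x
    have h1 := dist_N hN
    have h2 := hK _ _ _ _ _ (ho2 x u ((memS u).2 hu)) rfl
    have h3 := hfM u
    have h4 := hfM (o x)
    omega
  have hoo : ∀ v ∈ S, o v = v := by
    intro v hv
    symm
    apply huniq v v hv
    intro u' hu'
    by_cases h : u' = v
    · rw [h]
    have h1 := hpair v u' (Ne.symm h) ((memS v).1 hv) ((memS u').1 hu') _ (N_dist hG v u')
    have h2 := (memS v).1 hv
    have h3 := hfM v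
    have h4 := hfM u'
    simp only [K]
    have h5 : (M - f v + 1) * n ≤ (G.dist v u' + (M - f u')) * n := Nat.mul_le_mul_right _ (by omega)
    have h6 : (M - f v + 1) * n = (M - f v) * n + n := by ring
    have h7 := he v
    rw [SimpleGraph.dist_self, Nat.zero_add]
    omega
  -- parents
  have hpar : ∀ x, ∃ y, (o x = x → y = x) ∧ (o x ≠ x → G.Adj x y ∧
      G.dist y (o x) + 1 ≤ G.dist x (o x)) := by
    intro x
    by_cases hx : o x = x
    · exact ⟨x, fun _ => rfl, fun h => absurd hx h⟩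
    · obtain ⟨q, hq⟩ := hG.exists_walk_length_eq_dist x (o x)
      obtain ⟨y, hy1, hy2⟩ := step q (Ne.symm hx)
      exact ⟨y, fun h' => absurd h' hx, fun _ => ⟨hy1, by omega⟩⟩
  choose p hp1 hp2 using hpar
  have hpo : ∀ x, o (p x) = o x := by
    intro x
    by_cases hx : o x = x
    · rw [hp1 x hx]
    obtain ⟨hadj, hd⟩ := hp2 x hx
    symm
    apply huniq (p x) (o x) (ho1 x)
    intro u' hu'
    have h1 := ho2 x u' hu'
    have h2 : G.dist x u' ≤ G.dist (p x) u' + 1 := by
      have h3 : N G x (p x) 1 := ⟨SimpleGraph.Walk.cons hadj SimpleGraph.Walk.nil, by simp⟩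
      have := dist_N (N_trans h3 (N_dist hG (p x) u'))
      omega
    simp only [K] at h1 ⊢
    have h4 : (G.dist (p x) (o x) + (M - f (o x)) + 1) * n ≤ (G.dist x (o x) + (M - f (o x))) * n :=
      Nat.mul_le_mul_right _ (by omega)
    have h5 : (G.dist (p x) (o x) + (M - f (o x)) + 1) * n
        = (G.dist (p x) (o x) + (M - f (o x))) * n + n := by ring
    have h6 : (G.dist x u' + (M - f u')) * n ≤ (G.dist (p x) u' + (M - f u') + 1) * n :=
      Nat.mul_le_mul_right _ (by omega)
    have h7 : (G.dist (p x) u' + (M - f u') + 1) * n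
        = (G.dist (p x) u' + (M - f u')) * n + n := by ring
    omega
  let r : V → ℕ := fun x => G.dist x (o x)
  have hpne : ∀ x, p x ≠ x → o x ≠ x := fun x h h' => h (hp1 x h')
  have hpeq : ∀ x, p x = x → o x = x := by
    intro x h
    by_contra h'
    have := (hp2 x h').1
    rw [h] at this
    exact G.loopless.irrefl x this
  have hr : ∀ x, p x ≠ x → r (p x) < r x := by
    intro x hx
    have := (hp2 x (hpne x hx)).2
    simp only [r, hpo]
    omega
  set F : SimpleGraph V := SimpleGraph.fromRel (fun x y => p x = y) with hF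
  have hFac : F.IsAcyclic := acyclic_of_parent hr
  have hFadj : ∀ x y, F.Adj x y ↔ x ≠ y ∧ (p x = y ∨ p y = x) := by
    intro x y
    rw [hF, SimpleGraph.fromRel_adj]
  have hFG : F ≤ G := by
    intro x y hxy
    rw [hFadj] at hxy
    obtain ⟨hne, h | h⟩ := hxy
    · subst h
      exact (hp2 x (hpne x (Ne.symm hne))).1
    · subst h
      exact (hp2 y (hpne y hne)).1.symm
  have hFo : ∀ x y, F.Adj x y → o x = o y := by
    intro x y hxy
    rw [hFadj] at hxy
    obtain ⟨hne, h | h⟩ := hxy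
    · rw [← h, hpo]
    · rw [← h, hpo]
  have hFN : ∀ k x, r x = k → N F x (o x) k := by
    intro k
    induction k using Nat.strong_induction_on with
    | _ k ih =>
      intro x hx
      by_cases h : p x = x
      · rw [hpeq x h]; exact N_self _ _
      · have h1 := hr x h
        have h2 := ih (r (p x)) (by omega) (p x) rfl
        rw [hpo] at h2
        have h3 : F.Adj x (p x) := (hFadj _ _).2 ⟨Ne.symm h, Or.inl rfl⟩
        have h4 : N F x (p x) 1 := ⟨SimpleGraph.Walk.cons h3 SimpleGraph.Walk.nil, by simp⟩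
        exact N_mono (N_trans h4 h2) (by omega)
  -- good edges
  let Hg : SimpleGraph V :=
    { Adj := fun a b => G.Adj a b ∧ o a ≠ o b ∧ r a + 1 + r b ≤ f (o a) + f (o b)
      symm := ⟨fun a b h => ⟨h.1.symm, Ne.symm h.2.1, by have := h.2.2; omega⟩⟩
      loopless := ⟨fun a h => G.loopless.irrefl a h.1⟩ }
  have hHg : Hg ≤ G := fun a b h => h.1
  obtain ⟨F', hFF', hF'H, hF'ac, hF'r⟩ :=
    (F ⊔ Hg).exists_isAcyclic_reachable_eq_le_of_le_of_isAcyclic le_sup_left hFac
  obtain ⟨T, hF'T, hTG, hT⟩ :=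
    hG.exists_isTree_le_of_le_of_isAcyclic (hF'H.trans (sup_le hFG hHg)) hF'ac
  have hFT : F ≤ T := hFF'.trans hF'T
  have hTN : ∀ x, N T x (o x) (r x) := fun x => N_le hFT (hFN _ x rfl)
  refine ⟨T, hTG, hT, ?_, ?_⟩
  · intro x
    exact ⟨o x, hoS x, N_mono (hTN x) (hod x)⟩
  · intro v hv
    have hvS := (memS v).2 hv
    by_cases hall : ∀ x, o x = v
    · left
      apply ecc_le_of
      intro u _
      have h1 := hTN u
      have h2 := hod u
      rw [hall u] at h1 h2
      refine N_mono (N_symm h1) ?_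
      simp only [r, hall u]
      exact h2
    · right
      push Not at hall
      obtain ⟨x₀, hx₀⟩ := hall
      obtain ⟨u, huv, hu, hN⟩ : ∃ u, u ≠ v ∧ 0 < f u ∧ N G v u (f v + f u) := by
        rcases hpart v hv with h | h
        · exact ⟨o x₀, hx₀, hoS x₀, N_mono (N_ecc (hG v (o x₀))) (by omega)⟩
        · exact h
      have huS := (memS u).2 hu
      obtain ⟨q, hq⟩ := hN
      have hou : ¬ (o u = v) := by rw [hoo u huS]; exact huv
      obtain ⟨x, y, i, j, hxy, hx, hy, hi, hj, hij⟩ := bd (P := fun z => o z = v) q (hoo v hvS) hou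
      have hgood : Hg.Adj x y := by
        refine ⟨hxy, by rw [hx]; exact Ne.symm hy, ?_⟩
        have h1 : r x ≤ i := by
          simp only [r, hx]
          exact dist_N (N_symm hi)
        have h2 := hK _ _ _ _ _ (ho2 y u huS) rfl
        have h3 := dist_N hj
        have h4 := hfM u
        have h5 := hfM (o y)
        rw [hx]
        simp only [r] at *
        omega
      have hreach : F'.Reachable x y := by
        rw [hF'r]
        exact SimpleGraph.Adj.reachable (Or.inr hgood)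
      obtain ⟨q'⟩ := hreach
      obtain ⟨⟨⟨a, b⟩, hab⟩, -, ha, hb⟩ := q'.exists_boundary_dart {z | o z = v} hx hy
      replace ha : o a = v := ha
      replace hb : ¬ o b = v := hb
      replace hab : F'.Adj a b := hab
      have hTab : T.Adj a b := hF'T hab
      rcases hF'H hab with h | h
      · exact absurd ((hFo a b h).symm.trans ha) hb
      · refine ⟨o b, hb, hoS b, ?_⟩
        have h1 := hTN a
        have h2 := hTN b
        have h3 : N T a b 1 := ⟨SimpleGraph.Walk.cons hTab SimpleGraph.Walk.nil, by simp⟩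
        have h4 := h.2.2
        rw [ha] at h1 h4
        exact N_mono (N_trans (N_trans (N_symm h1) h3) h2) h4

/-- For every finite connected graph `G`, `i_bn(G)` is the minimum of `i_bn(T)` over the spanning
trees `T` of `G`. -/
theorem result (G : SimpleGraph V) (hG : G.Connected) :
    (∃ T ≤ G, T.IsTree ∧ iBn T = iBn G) ∧ ∀ T ≤ G, T.IsTree → iBn G ≤ iBn T := by
  have hle : ∀ T ≤ G, T.IsTree → iBn G ≤ iBn T := fun T h hT => le_of_tree h hT.connected
  refine ⟨?_, hle⟩
  obtain ⟨f, hf, hfc⟩ := iBn_attained G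
  obtain ⟨T, hTG, hT, h1, h2⟩ := exists_tree hG (nec_dom hf)
    (fun u v huv hu hv k hk => pair_iff hf.2.1 huv hu hv hk) (nec_part hf)
  refine ⟨T, hTG, hT, le_antisymm ?_ (hle T hTG hT)⟩
  obtain ⟨g, hg, hgc⟩ := main_lemma h1 h2
  rw [← hfc]
  exact (iBn_le hg).trans hgc

end

end Pool.Agent.Results.MP_7de179_co.SpanningTrees
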